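import Pool.Agent.P.MP_5c8462_an.Cube

set_option autoImplicit false

namespace Pool.Agent.P.MP_5c8462_an

open MeasureTheory Real Set

abbrev E (d : ℕ) := EuclideanSpace ℝ (Fin d)

/-- The admissible min-max levels. -/
def Adm {d : ℕ} (k : ℕ) (Ω : Set (E d)) (M : ℝ) : Prop :=
  ∃ f : Fin (k + 1) → E d → ℝ, (∀ i, ContDiff ℝ 1 (f i)) ∧
    (∀ c : Fin (k + 1) → ℝ, (∀ x ∈ Ω, ∑ i, c i * f i x = 0) → c = 0) ∧
    ∀ c : Fin (k + 1) → ℝ, ∫ x in Ω, ‖fderiv ℝ (fun x => ∑ i, c i * f i x) x‖ ^ 2 ≤
      M * ∫ x in Ω, (∑ i, c i * f i x) ^ 2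

def box {d : ℕ} (b : OrthonormalBasis (Fin d) ℝ (E d)) (p : E d) (a : Fin d → ℝ) : Set (E d) :=
  {x | ∀ i, 0 < inner ℝ (b i) (x - p) ∧ inner ℝ (b i) (x - p) < a i}

noncomputable def par {d : ℕ} (b : OrthonormalBasis (Fin d) ℝ (E d)) (p : E d)
    (y : Fin d → ℝ) : E d := p + ∑ i, y i • b i

variable {d : ℕ} (b : OrthonormalBasis (Fin d) ℝ (E d)) (p : E d)

theorem inner_par (y : Fin d → ℝ) (i : Fin d) : inner ℝ (b i) (par b p y - p) = y i := by
  simp only [par, add_sub_cancel_left]
  exact b.orthonormal.inner_right_fintype y i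

theorem par_inner (x : E d) : par b p (fun i => inner ℝ (b i) (x - p)) = x := by
  simp only [par]
  rw [b.sum_repr']
  abel

theorem par_eq : par b p = (fun x => p + x) ∘ b.repr.symm ∘ WithLp.toLp 2 := by
  funext y
  simp only [par, Function.comp]
  rw [← b.sum_repr_symm]

theorem par_cont : Continuous (par b p) := by
  unfold par
  fun_prop

theorem int_box (a : Fin d → ℝ) (G : E d → ℝ) :
    ∫ x in box b p a, G x = ∫ y in Icc 0 a, G (par b p y) := by
  have hmp : MeasurePreserving (par b p) volume volume := by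
    rw [par_eq]
    exact (measurePreserving_add_left volume p).comp
      (b.measurePreserving_repr_symm.comp (PiLp.volume_preserving_toLp (Fin d)))
  have hme : MeasurableEmbedding (par b p) := by
    rw [par_eq]
    exact (measurableEmbedding_addLeft p).comp
      (b.repr.symm.toHomeomorph.measurableEmbedding.comp
        (MeasurableEquiv.toLp 2 (Fin d → ℝ)).measurableEmbedding)
  rw [← hmp.setIntegral_preimage_emb hme]
  have e : par b p ⁻¹' box b p a = univ.pi fun i => Ioo ((0 : Fin d → ℝ) i) (a i) := by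
    ext y
    simp [box, inner_par]
  rw [e]
  exact setIntegral_congr_set Measure.univ_pi_Ioo_ae_eq_Icc

theorem box_open (a : Fin d → ℝ) : IsOpen (box b p a) := by
  have e : box b p a = ⋂ i, ((fun x => inner ℝ (b i) (x - p)) ⁻¹' Ioo 0 (a i)) := by
    ext x
    simp [box]
  rw [e]
  exact isOpen_iInter_of_finite fun i => isOpen_Ioo.preimage (by fun_prop)

theorem box_convex (a : Fin d → ℝ) : Convex ℝ (box b p a) := by
  intro x hx y hy s t hs ht hst i
  have e : s • x + t • y - p = s • (x - p) + t • (y - p) := by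
    have : p = s • p + t • p := by rw [← add_smul, hst, one_smul]
    rw [smul_sub, smul_sub]
    conv_lhs => rw [this]
    abel
  rw [e, inner_add_right, inner_smul_right, inner_smul_right]
  exact convex_Ioo 0 (a i) (hx i) (hy i) hs ht hst

theorem box_bounded (a : Fin d → ℝ) : Bornology.IsBounded (box b p a) := by
  refine ((isCompact_Icc (a := (0 : Fin d → ℝ)) (b := a)).image (par_cont b p)).isBounded.subset ?_
  intro x hx
  exact ⟨fun i => inner ℝ (b i) (x - p), ⟨fun i => (hx i).1.le, fun i => (hx i).2.le⟩,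
    par_inner b p x⟩

theorem box_nonempty (a : Fin d → ℝ) (ha : ∀ i, 0 < a i) : (box b p a).Nonempty := by
  refine ⟨par b p fun i => a i / 2, fun i => ?_⟩
  rw [inner_par]
  constructor <;> linarith [ha i]

theorem par_deriv (u : E d → ℝ) (hu : Differentiable ℝ u) (y : Fin d → ℝ) (i : Fin d) (t : ℝ) :
    HasDerivAt (fun s => u (par b p (Function.update y i s)))
      (fderiv ℝ u (par b p (Function.update y i t)) (b i)) t := by
  have h1 : HasDerivAt (fun s => par b p (Function.update y i s)) (b i) t := by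
    have e : (fun s => par b p (Function.update y i s)) =
        fun s => s • b i + (p + ∑ j ∈ Finset.univ.erase i, y j • b j) := by
      funext s
      simp only [par]
      rw [← Finset.add_sum_erase _ _ (Finset.mem_univ i), Function.update_self]
      have : ∑ j ∈ Finset.univ.erase i, Function.update y i s j • b j =
          ∑ j ∈ Finset.univ.erase i, y j • b j :=
        Finset.sum_congr rfl fun j hj => by
          rw [Function.update_of_ne (Finset.ne_of_mem_erase hj)]
      rw [this]
      abel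
    rw [e]
    have h2 : HasDerivAt (fun s : ℝ => s • b i) (b i) t := by
      simpa using (hasDerivAt_id t).smul_const (b i)
    exact h2.add_const _
  exact (hu _).hasFDerivAt.comp_hasDerivAt t h1

theorem int_pos {Ω : Set (E d)} (ho : IsOpen Ω) (hb : Bornology.IsBounded Ω) {u : E d → ℝ}
    (hu : Continuous u) (hx : ∃ x ∈ Ω, u x ≠ 0) : 0 < ∫ x in Ω, u x ^ 2 := by
  have hu2 : Continuous fun x => u x ^ 2 := hu.pow 2
  have hi : IntegrableOn (fun x => u x ^ 2) Ω :=
    (hu2.continuousOn.integrableOn_compact hb.isCompact_closure).mono_set subset_closure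
  rw [setIntegral_pos_iff_support_of_nonneg_ae (Filter.Eventually.of_forall fun x => sq_nonneg _) hi]
  obtain ⟨x, hx, hx0⟩ := hx
  exact (hu2.isOpen_support.inter ho).measure_pos _ ⟨x, pow_ne_zero 2 hx0, hx⟩

theorem Adm.nonneg {k : ℕ} {Ω : Set (E d)} (ho : IsOpen Ω) (hb : Bornology.IsBounded Ω) {M : ℝ}
    (h : Adm k Ω M) : 0 ≤ M := by
  obtain ⟨f, hf, hli, hM⟩ := h
  have hc : Continuous fun x => ∑ i, (1 : Fin (k + 1) → ℝ) i * f i x :=
    continuous_finsetSum _ fun i _ => continuous_const.mul (hf i).continuous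
  have hx : ∃ x ∈ Ω, ∑ i, (1 : Fin (k + 1) → ℝ) i * f i x ≠ 0 := by
    by_contra hcon
    push Not at hcon
    simpa using congrFun (hli 1 hcon) 0
  have h1 := int_pos ho hb hc hx
  have h2 := (integral_nonneg (μ := volume.restrict Ω) fun x =>
    sq_nonneg ‖fderiv ℝ (fun x => ∑ i, (1 : Fin (k + 1) → ℝ) i * f i x) x‖).trans (hM 1)
  exact nonneg_of_mul_nonneg_left h2 h1

theorem sumQ {n : ℕ} (k : ℕ) (G : (Fin (n + 1) → ℝ) → ℝ) (hG : Continuous G) :
    ∫ y in Icc 0 (Fin.cons (k : ℝ) (fun _ => 1) : Fin (n + 1) → ℝ), G y =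
      ∑ j : Fin k, ∫ y in Icc (Fin.cons (j : ℝ) 0 : Fin (n + 1) → ℝ)
        (fun i => (Fin.cons (j : ℝ) 0 : Fin (n + 1) → ℝ) i + 1), G y := by
  simp only [split _ _ G hG]
  have e1 : ∀ j : ℝ, Fin.tail (fun i => (Fin.cons j 0 : Fin (n + 1) → ℝ) i + 1) = fun _ => 1 := by
    intro j
    funext i
    simp [Fin.tail]
  have e2 : Fin.tail (0 : Fin (n + 1) → ℝ) = 0 := rfl
  simp only [e1, e2, Fin.tail_cons, Fin.cons_zero, Pi.zero_apply]
  have hc : Continuous fun t => ∫ y in Icc (0 : Fin n → ℝ) (fun _ => 1), G (Fin.cons t y) :=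
    continuous_parametric_integral_of_continuous (f := fun t y => G (Fin.cons t y))
      (hG.comp cons_cont) isCompact_Icc
  have h := intervalIntegral.sum_integral_adjacent_intervals (μ := volume) (a := fun j : ℕ => (j : ℝ))
    (n := k) (f := fun t => ∫ y in Icc (0 : Fin n → ℝ) (fun _ => 1), G (Fin.cons t y))
    fun j _ => hc.intervalIntegrable _ _
  simp only [integral_Icc_eq_integral_Ioc (X := ℝ)]
  rw [← intervalIntegral.integral_of_le (Nat.cast_nonneg k)]
  simp only [Nat.cast_zero] at h
  rw [← h, Finset.sum_range]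
  refine Finset.sum_congr rfl fun j _ => ?_
  rw [← intervalIntegral.integral_of_le (by linarith)]
  simp

theorem lower {n : ℕ} (b : OrthonormalBasis (Fin (n + 1)) ℝ (E (n + 1))) (p : E (n + 1)) (k : ℕ)
    {M : ℝ} (h : Adm k (box b p (Fin.cons (k : ℝ) (fun _ => 1))) M) : π ^ 2 ≤ M := by
  obtain ⟨f, hf, hli, hM⟩ := h
  set q : Fin k → Fin (n + 1) → ℝ := fun j => Fin.cons (j : ℝ) 0 with hq
  set A : Matrix (Fin k) (Fin (k + 1)) ℝ :=
    fun j i => ∫ y in Icc (q j) (fun l => q j l + 1), f i (par b p y) with hA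
  obtain ⟨c, hc, hc0⟩ : ∃ c : Fin (k + 1) → ℝ, A.mulVecLin c = 0 ∧ c ≠ 0 := by
    have : LinearMap.ker A.mulVecLin ≠ ⊥ :=
      LinearMap.ker_ne_bot_of_finrank_lt (by simp)
    obtain ⟨c, h1, h2⟩ := Submodule.exists_mem_ne_zero_of_ne_bot this
    exact ⟨c, h1, h2⟩
  set u : E (n + 1) → ℝ := fun x => ∑ i, c i * f i x with hu
  have uC : ContDiff ℝ 1 u := ContDiff.sum fun i _ => contDiff_const.mul (hf i)
  have uD : Differentiable ℝ u := uC.differentiable (by norm_num)
  have uF : Continuous (fderiv ℝ u) := uC.continuous_fderiv (by norm_num)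
  have hx : ∃ x ∈ box b p (Fin.cons (k : ℝ) (fun _ => 1)), u x ≠ 0 := by
    by_contra hcon
    push Not at hcon
    exact hc0 (hli c hcon)
  have hpos := int_pos (box_open b p _) (box_bounded b p _) uC.continuous hx
  have hM' := hM c
  have cF : Continuous fun y => u (par b p y) := uC.continuous.comp (par_cont b p)
  have cg : ∀ i, Continuous fun y => fderiv ℝ u (par b p y) (b i) :=
    fun i => (uF.comp (par_cont b p)).clm_apply continuous_const
  have key : π ^ 2 * ∫ x in box b p (Fin.cons (k : ℝ) (fun _ => 1)), u x ^ 2 ≤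
      ∫ x in box b p (Fin.cons (k : ℝ) (fun _ => 1)), ‖fderiv ℝ u x‖ ^ 2 := by
    have c1 : Continuous fun y => u (par b p y) ^ 2 := cF.pow 2
    have c2 : Continuous fun y => ‖fderiv ℝ u (par b p y)‖ ^ 2 :=
      (uF.comp (par_cont b p)).norm.pow 2
    rw [int_box, int_box, sumQ k _ c1, sumQ k _ c2, Finset.mul_sum]
    refine Finset.sum_le_sum fun j _ => ?_
    have h1 := cube (n + 1) (q j) (fun y => u (par b p y))
      (fun i y => fderiv ℝ u (par b p y) (b i)) cF cg (fun i y t => par_deriv b p u uD y i t)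
    have h2 : ∫ y in Icc (q j) (fun l => q j l + 1), u (par b p y) = 0 := by
      simp only [hu]
      rw [integral_finsetSum]
      · have := congrFun hc j
        simp only [Matrix.mulVecLin_apply, Matrix.mulVec, dotProduct, hA, Pi.zero_apply] at this
        rw [← this]
        refine Finset.sum_congr rfl fun i _ => ?_
        rw [integral_const_mul, mul_comm]
      · intro i _
        exact (continuous_const.mul ((hf i).continuous.comp
          (par_cont b p))).continuousOn.integrableOn_compact isCompact_Icc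
    rw [h2, ← integral_finsetSum] at h1
    · simpa [b.norm_dual] using h1
    · intro i _
      exact ((cg i).pow 2).continuousOn.integrableOn_compact isCompact_Icc
  exact le_of_mul_le_mul_right (key.trans hM') hpos

end Pool.Agent.P.MP_5c8462_an
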