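import Pool.Agent.P.MP_5c8462_an.W

set_option autoImplicit false

namespace Pool.Agent.P.MP_5c8462_an

open MeasureTheory Real Set

theorem var_expand {X : Type*} [MeasurableSpace X] (μ : Measure X) [IsProbabilityMeasure μ]
    (f : X → ℝ) (h1 : Integrable f μ) (h2 : Integrable (fun x => f x ^ 2) μ) (c : ℝ) :
    ∫ x, (f x - c) ^ 2 ∂μ = (∫ x, f x ^ 2 ∂μ) - 2 * c * (∫ x, f x ∂μ) + c ^ 2 := by
  have : (fun x => (f x - c) ^ 2) = fun x => f x ^ 2 - 2 * c * f x + c ^ 2 := by
    funext x; ring
  have h3 : Integrable (fun x => f x ^ 2 - 2 * c * f x) μ := h2.sub (h1.const_mul _)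
  rw [this, integral_add h3 (integrable_const _),
    integral_sub h2 (h1.const_mul _), integral_const_mul]
  simp

theorem sq_int_le {X : Type*} [MeasurableSpace X] (μ : Measure X) [IsProbabilityMeasure μ]
    (f : X → ℝ) (h1 : Integrable f μ) (h2 : Integrable (fun x => f x ^ 2) μ) :
    (∫ x, f x ∂μ) ^ 2 ≤ ∫ x, f x ^ 2 ∂μ := by
  have h := var_expand μ f h1 h2 (∫ x, f x ∂μ)
  have h0 : 0 ≤ ∫ x, (f x - ∫ x, f x ∂μ) ^ 2 ∂μ := integral_nonneg fun x => sq_nonneg _
  nlinarith

theorem swapKL {n : ℕ} {K : Set ℝ} {L : Set (Fin n → ℝ)} (hK : IsCompact K) (hL : IsCompact L)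
    (G : ℝ → (Fin n → ℝ) → ℝ) (hG : Continuous G.uncurry) :
    ∫ t in K, ∫ y in L, G t y = ∫ y in L, ∫ t in K, G t y := by
  apply integral_integral_swap
  rw [Measure.prod_restrict]
  exact hG.continuousOn.integrableOn_compact (hK.prod hL)

theorem tens {n : ℕ} {K : Set ℝ} {L : Set (Fin n → ℝ)} (hK : IsCompact K) (hL : IsCompact L)
    (h1 : volume K = 1) (h2 : volume L = 1) (F : ℝ → (Fin n → ℝ) → ℝ)
    (hF : Continuous F.uncurry) :
    (∫ t in K, ∫ y in L, F t y ^ 2) - (∫ t in K, ∫ y in L, F t y) ^ 2 ≤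
      (∫ y in L, ((∫ t in K, F t y ^ 2) - (∫ t in K, F t y) ^ 2)) +
        ∫ t in K, ((∫ y in L, F t y ^ 2) - (∫ y in L, F t y) ^ 2) := by
  have : IsProbabilityMeasure (volume.restrict K) := ⟨by simpa using h1⟩
  have : IsProbabilityMeasure (volume.restrict L) := ⟨by simpa using h2⟩
  have iK : ∀ g : ℝ → ℝ, Continuous g → Integrable g (volume.restrict K) :=
    fun g hg => hg.continuousOn.integrableOn_compact hK
  have iL : ∀ g : (Fin n → ℝ) → ℝ, Continuous g → Integrable g (volume.restrict L) :=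
    fun g hg => hg.continuousOn.integrableOn_compact hL
  have hF' : Continuous fun z : (Fin n → ℝ) × ℝ => F z.2 z.1 := hF.comp continuous_swap
  set h : ℝ → ℝ := fun t => ∫ y in L, F t y with hh
  set H : (Fin n → ℝ) → ℝ := fun y => ∫ t in K, F t y with hH
  have hc : Continuous h := continuous_parametric_integral_of_continuous hF hL
  have Hc : Continuous H :=
    continuous_parametric_integral_of_continuous (f := fun y t => F t y) hF' hK
  have Ft : ∀ t, Continuous fun y => F t y := fun t => hF.comp (Continuous.prodMk_right t)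
  have Fy : ∀ y, Continuous fun t => F t y := fun y => hF.comp (Continuous.prodMk_left y)
  set m := ∫ t in K, h t with hm
  have hm' : m = ∫ y in L, H y := swapKL hK hL F hF
  have hG : Continuous (Function.uncurry fun t y => (F t y - h t) ^ 2) :=
    (hF.sub (hc.comp continuous_fst)).pow 2
  have hG' : Continuous fun z : (Fin n → ℝ) × ℝ => (F z.2 z.1 - h z.2) ^ 2 :=
    hG.comp continuous_swap
  have s1 : ∀ y, (H y - m) ^ 2 ≤ ∫ t in K, (F t y - h t) ^ 2 := by
    intro y
    have e : H y - m = ∫ t in K, (F t y - h t) := by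
      rw [integral_sub (iK _ (Fy y)) (iK _ hc)]
    rw [e]
    exact sq_int_le _ _ (iK _ ((Fy y).sub hc)) (iK _ (((Fy y).sub hc).pow 2))
  have s2 : ∫ y in L, (H y - m) ^ 2 ≤ ∫ y in L, ∫ t in K, (F t y - h t) ^ 2 := by
    apply integral_mono (iL _ ((Hc.sub continuous_const).pow 2)) _ s1
    exact iL _ (continuous_parametric_integral_of_continuous
      (f := fun y t => (F t y - h t) ^ 2) hG' hK)
  rw [← swapKL hK hL _ hG, var_expand _ H (iL _ Hc) (iL _ (Hc.pow 2))] at s2
  have s3 : ∀ t, ∫ y in L, (F t y - h t) ^ 2 = (∫ y in L, F t y ^ 2) - h t ^ 2 := by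
    intro t
    rw [var_expand _ _ (iL _ (Ft t)) (iL _ ((Ft t).pow 2))]
    simp only [hh]
    ring
  simp only [s3] at s2
  have hF2 : Continuous (Function.uncurry fun t y => F t y ^ 2) := hF.pow 2
  have s4 : ∫ y in L, ((∫ t in K, F t y ^ 2) - H y ^ 2) =
      (∫ t in K, ∫ y in L, F t y ^ 2) - ∫ y in L, H y ^ 2 := by
    have H2 : Continuous fun y => H y ^ 2 := Hc.pow 2
    rw [integral_sub _ (iL _ H2), swapKL hK hL _ hF2]
    exact iL _ (continuous_parametric_integral_of_continuous
      (f := fun y t => F t y ^ 2) (hF2.comp continuous_swap) hK)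
  rw [s4, ← hm'] at *
  nlinarith

theorem cons_cont {n : ℕ} :
    Continuous fun z : ℝ × (Fin n → ℝ) => (Fin.cons z.1 z.2 : Fin (n + 1) → ℝ) := by
  refine continuous_pi fun i => ?_
  refine Fin.cases ?_ (fun j => ?_) i
  · simpa using continuous_fst
  · simp only [Fin.cons_succ]
    exact (continuous_apply j).comp continuous_snd

theorem split {n : ℕ} (p q : Fin (n + 1) → ℝ) (G : (Fin (n + 1) → ℝ) → ℝ) (hG : Continuous G) :
    ∫ x in Icc p q, G x =
      ∫ t in Icc (p 0) (q 0), ∫ y in Icc (Fin.tail p) (Fin.tail q), G (Fin.cons t y) := by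
  have e1 : ∀ {m : ℕ} (a b : Fin m → ℝ), volume.restrict (Icc a b) =
      Measure.pi fun i => volume.restrict (Icc (a i) (b i)) := by
    intro m a b
    rw [← Set.pi_univ_Icc, volume_pi, Measure.restrict_pi_pi]
  have hmp := (measurePreserving_piFinSuccAbove
    (fun i : Fin (n + 1) => volume.restrict (Icc (p i) (q i))) 0).symm
  rw [e1 p q, ← hmp.integral_comp', integral_prod]
  · rw [e1 (Fin.tail p)]
    simp [MeasurableEquiv.piFinSuccAbove_symm_apply, Fin.insertNthEquiv, Fin.tail]
  · have : (Measure.pi fun j : Fin n => volume.restrict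
        (Icc (p (Fin.succAbove 0 j)) (q (Fin.succAbove 0 j)))) =
        volume.restrict (Icc (Fin.tail p) (Fin.tail q)) := by
      rw [e1 (Fin.tail p)]
      simp [Fin.tail]
    rw [this, Measure.prod_restrict]
    have hc : Continuous fun z : ℝ × (Fin n → ℝ) => G (Fin.cons z.1 z.2) := hG.comp cons_cont
    have := hc.continuousOn.integrableOn_compact (μ := volume.prod volume)
      ((isCompact_Icc (a := p 0) (b := q 0)).prod
        (isCompact_Icc (a := Fin.tail p) (b := Fin.tail q)))
    simpa [IntegrableOn, MeasurableEquiv.piFinSuccAbove_symm_apply, Fin.insertNthEquiv] using this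

/-- Sharp Neumann Poincare inequality on a unit cube. -/
theorem cube (n : ℕ) : ∀ (p : Fin n → ℝ) (f : (Fin n → ℝ) → ℝ) (g : Fin n → (Fin n → ℝ) → ℝ),
    Continuous f → (∀ i, Continuous (g i)) →
    (∀ i x t, HasDerivAt (fun s => f (Function.update x i s)) (g i (Function.update x i t)) t) →
    π ^ 2 * ((∫ x in Icc p (fun i => p i + 1), f x ^ 2) -
      (∫ x in Icc p (fun i => p i + 1), f x) ^ 2) ≤
      ∑ i, ∫ x in Icc p (fun i => p i + 1), g i x ^ 2 := by
  induction n with
  | zero =>
    intro p f g _ _ _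
    have e : ∀ x, f x = f p := fun x => by rw [Subsingleton.elim x p]
    have e2 : f = fun _ => f p := funext e
    rw [e2]
    simp [Measure.real, Real.volume_Icc_pi]
  | succ n ih =>
    intro p f g hf hg hd
    have h1 : volume (Icc (p 0) (p 0 + 1)) = 1 := by simp
    have h2 : volume (Icc (Fin.tail p) (fun i => Fin.tail p i + 1)) = 1 := by
      simp [Real.volume_Icc_pi]
    have ht : Fin.tail (fun i => p i + 1) = fun i => Fin.tail p i + 1 := rfl
    have hf2 : Continuous fun x => f x ^ 2 := hf.pow 2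
    have hg2 : ∀ i, Continuous fun x => g i x ^ 2 := fun i => (hg i).pow 2
    rw [Fin.sum_univ_succ]
    simp only [split p _ _ hf, split p _ _ hf2, split p _ _ (hg2 _), ht]
    set K := Icc (p 0) (p 0 + 1) with hK
    set L := Icc (Fin.tail p) (fun i => Fin.tail p i + 1) with hL
    have cK : IsCompact K := isCompact_Icc
    have cL : IsCompact L := isCompact_Icc
    have iK : ∀ g : ℝ → ℝ, Continuous g → Integrable g (volume.restrict K) :=
      fun g hg => hg.continuousOn.integrableOn_compact cK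
    have iL : ∀ g : (Fin n → ℝ) → ℝ, Continuous g → Integrable g (volume.restrict L) :=
      fun g hg => hg.continuousOn.integrableOn_compact cL
    have cc : ∀ G : (Fin (n + 1) → ℝ) → ℝ, Continuous G →
        Continuous (Function.uncurry fun t (y : Fin n → ℝ) => G (Fin.cons t y)) :=
      fun G hG => hG.comp cons_cont
    have cc' : ∀ G : (Fin (n + 1) → ℝ) → ℝ, Continuous G →
        Continuous (Function.uncurry fun (y : Fin n → ℝ) t => G (Fin.cons t y)) :=
      fun G hG => (cc G hG).comp continuous_swap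
    have pL : ∀ G : (Fin (n + 1) → ℝ) → ℝ, Continuous G →
        Continuous fun t => ∫ y in L, G (Fin.cons t y) :=
      fun G hG => continuous_parametric_integral_of_continuous (cc G hG) cL
    have pK : ∀ G : (Fin (n + 1) → ℝ) → ℝ, Continuous G →
        Continuous fun y : Fin n → ℝ => ∫ t in K, G (Fin.cons t y) :=
      fun G hG => continuous_parametric_integral_of_continuous (cc' G hG) cK
    have T := tens cK cL h1 h2 (fun t y => f (Fin.cons t y)) (cc f hf)
    have A : π ^ 2 * (∫ y in L, ((∫ t in K, f (Fin.cons t y) ^ 2) -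
        (∫ t in K, f (Fin.cons t y)) ^ 2)) ≤ ∫ t in K, ∫ y in L, g 0 (Fin.cons t y) ^ 2 := by
      rw [swapKL cK cL _ (cc _ (hg2 0)), ← integral_const_mul]
      apply integral_mono (iL _ (continuous_const.mul ((pK _ hf2).sub ((pK _ hf).pow 2))))
        (iL _ (pK _ (hg2 0)))
      intro y
      refine wirt (fun t => f (Fin.cons t y)) (fun t => g 0 (Fin.cons t y)) (fun t => ?_)
        ((cc _ (hg 0)).comp (Continuous.prodMk_left y)) (p 0)
      simpa [Fin.update_cons_zero] using hd 0 (Fin.cons 0 y) t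
    have B : π ^ 2 * (∫ t in K, ((∫ y in L, f (Fin.cons t y) ^ 2) -
        (∫ y in L, f (Fin.cons t y)) ^ 2)) ≤
        ∑ i : Fin n, ∫ t in K, ∫ y in L, g i.succ (Fin.cons t y) ^ 2 := by
      rw [← integral_finsetSum _ fun i _ => iK _ (pL _ (hg2 _)), ← integral_const_mul]
      apply integral_mono (iK _ (continuous_const.mul ((pL _ hf2).sub ((pL _ hf).pow 2))))
        (iK _ (continuous_finsetSum _ fun i _ => pL _ (hg2 _)))
      intro t
      refine ih (Fin.tail p) (fun y => f (Fin.cons t y)) (fun i y => g i.succ (Fin.cons t y))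
        ((cc _ hf).comp (Continuous.prodMk_right t))
        (fun i => (cc _ (hg i.succ)).comp (Continuous.prodMk_right t)) (fun i x s => ?_)
      simpa [Fin.cons_update] using hd i.succ (Fin.cons t x) s
    have := mul_le_mul_of_nonneg_left T (sq_nonneg π)
    rw [mul_add] at this
    linarith

end Pool.Agent.P.MP_5c8462_an
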