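import Pool.Agent.P.MP_5c8462_an.Upper

set_option autoImplicit false

namespace Pool.Agent.P.MP_5c8462_an

open MeasureTheory Real Set

/-- Size of a fibre of a labelling of the coordinates. -/
def fib {d : ℕ} (Γ : Fin d → Fin d) (i : Fin d) : ℕ := (Finset.univ.filter fun l => Γ l = i).card

theorem fib_pos {d : ℕ} (Γ : Fin d → Fin d) (l : Fin d) : 0 < fib Γ (Γ l) :=
  Finset.card_pos.2 ⟨l, by simp⟩

theorem exists_basis {d : ℕ} (Γ : Fin d → Fin d) :
    ∃ b : OrthonormalBasis (Fin d) ℝ (E d), ∀ i ∈ Set.range Γ, ∀ l,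
      b i l = if Γ l = i then (√(fib Γ i))⁻¹ else 0 := by
  set v : Fin d → E d := fun i => WithLp.toLp 2 fun l => if Γ l = i then (√(fib Γ i))⁻¹ else 0
    with hv
  have hon : Orthonormal ℝ ((Set.range Γ).domRestrict v) := by
    rw [orthonormal_iff_ite]
    rintro ⟨i, hi⟩ ⟨j, hj⟩
    simp only [Set.domRestrict_apply, hv, PiLp.inner_apply, Subtype.mk.injEq]
    split_ifs with hij
    · subst hij
      obtain ⟨l0, rfl⟩ := hi
      have hp : (0 : ℝ) < fib Γ (Γ l0) := Nat.cast_pos.2 (fib_pos Γ l0)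
      have : ∀ l, inner ℝ (if Γ l = Γ l0 then (√(fib Γ (Γ l0) : ℝ))⁻¹ else 0)
          (if Γ l = Γ l0 then (√(fib Γ (Γ l0) : ℝ))⁻¹ else 0) =
          if Γ l = Γ l0 then ((fib Γ (Γ l0) : ℝ))⁻¹ else 0 := by
        intro l
        split_ifs
        · rw [real_inner_self_eq_norm_sq, Real.norm_eq_abs, sq_abs, inv_pow, Real.sq_sqrt hp.le]
        · simp
      simp only [this]
      rw [← Finset.sum_filter, Finset.sum_const, nsmul_eq_mul]
      exact mul_inv_cancel₀ hp.ne'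
    · refine Finset.sum_eq_zero fun l _ => ?_
      by_cases h1 : Γ l = i
      · have h2 : ¬ Γ l = j := fun h => hij (h1.symm.trans h)
        simp [h2]
      · simp [h1]
  obtain ⟨b, hb⟩ := hon.exists_orthonormalBasis_extension_of_card_eq (by simp)
  exact ⟨b, fun i hi l => by rw [hb i hi]⟩

theorem mem_outer {n : ℕ} (k : ℝ) (x : E (n + 1)) (h0 : 0 < x 0 ∧ x 0 < k)
    (h1 : ∀ l, l ≠ 0 → 0 < x l ∧ x l < 1) :
    x ∈ box (EuclideanSpace.basisFun (Fin (n + 1)) ℝ) 0 (Fin.cons k fun _ => 1) := by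
  intro i
  have e : inner ℝ (EuclideanSpace.basisFun (Fin (n + 1)) ℝ i) (x - 0) = x i := by
    simp [EuclideanSpace.inner_single_left]
  rw [e]
  refine Fin.cases ?_ (fun j => ?_) i
  · simpa using h0
  · simpa using h1 _ (Fin.succ_ne_zero j)

theorem inner_box {n : ℕ} (Γ : Fin (n + 1) → Fin (n + 1)) (hΓ : ∀ l, Γ l = 0 ↔ l = 0)
    {k : ℕ} (hk : 1 ≤ k) (N : Fin (k + 1) → Fin (n + 1) → ℕ) (hN : Function.Injective N)
    (hN0 : ∀ j i, i ∉ Set.range Γ → N j i = 0) {s : ℝ}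
    (hs : ∀ j, (N j 0 : ℝ) ^ 2 / k ^ 2 + ∑ i : Fin n, (N j i.succ : ℝ) ^ 2 / fib Γ i.succ ≤ s)
    {η : ℝ} (h0 : 0 < η) (h1 : η < 1 / 2) :
    ∃ (b : OrthonormalBasis (Fin (n + 1)) ℝ (E (n + 1))) (p : E (n + 1)) (a : Fin (n + 1) → ℝ),
      (∀ i, 0 < a i) ∧
      box b p a ⊆ box (EuclideanSpace.basisFun (Fin (n + 1)) ℝ) 0 (Fin.cons (k : ℝ) fun _ => 1) ∧
      Adm k (box b p a) (π ^ 2 * s / (1 - 2 * η) ^ 2) := by
  classical
  obtain ⟨b, hb⟩ := exists_basis Γ
  have hk' : (0 : ℝ) < k := Nat.cast_pos.2 hk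
  have hη : 0 < 1 - 2 * η := by linarith
  set δ : ℝ := η / (n + 1) with hδ
  have hδ0 : 0 < δ := by positivity
  set a : Fin (n + 1) → ℝ := fun i =>
    if i = 0 then k else if i ∈ Set.range Γ then √(fib Γ i) * (1 - 2 * η) else δ with ha
  set p : E (n + 1) := WithLp.toLp 2 fun l => if l = 0 then 0 else η with hp
  have hapos : ∀ i, 0 < a i := by
    intro i
    simp only [ha]
    split_ifs with h2 h3
    · exact hk'
    · obtain ⟨l, rfl⟩ := h3
      exact mul_pos (Real.sqrt_pos.2 (Nat.cast_pos.2 (fib_pos Γ l))) hη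
    · exact hδ0
  have hf0 : fib Γ 0 = 1 := by
    have : (Finset.univ.filter fun l => Γ l = 0) = {0} := by
      ext l
      simp [hΓ]
    rw [fib, this, Finset.card_singleton]
  refine ⟨b, p, a, hapos, fun x hx => ?_, upper b p hapos N hN fun j => ?_⟩
  · set y : Fin (n + 1) → ℝ := fun i => inner ℝ (b i) (x - p) with hy
    have hy1 : ∀ i, 0 < y i ∧ y i < a i := hx
    apply mem_outer
    · have e : y 0 = x 0 := by
        have hb0 := hb 0 ⟨0, (hΓ 0).2 rfl⟩
        simp only [hy, PiLp.inner_apply, hb0, hΓ, hf0]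
        rw [Finset.sum_eq_single 0]
        · simp [hp]
        · intro l _ hl
          simp [hl]
        · simp
      have := hy1 0
      rw [e] at this
      simpa [ha] using this
    · intro l hl
      have e : x l = η + ∑ i, y i * b i l := by
        have := congrArg (fun z : E (n + 1) => z l) (par_inner b p x)
        simp only [par, PiLp.add_apply, hp, hl, if_false] at this
        rw [← this]
        simp [hy, hp]
      have hw : (0 : ℝ) < √(fib Γ (Γ l)) := Real.sqrt_pos.2 (Nat.cast_pos.2 (fib_pos Γ l))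
      have herr : |∑ i, y i * b i l - y (Γ l) * (√(fib Γ (Γ l)))⁻¹| ≤ η := by
        have e2 : y (Γ l) * (√(fib Γ (Γ l)))⁻¹ =
            ∑ i, if Γ l = i then y i * (√(fib Γ i))⁻¹ else 0 := by
          simp
        rw [e2, ← Finset.sum_sub_distrib]
        refine (Finset.abs_sum_le_sum_abs _ _).trans ?_
        calc _ ≤ ∑ _i : Fin (n + 1), δ := by
              refine Finset.sum_le_sum fun i _ => ?_
              by_cases hi : i ∈ Set.range Γ
              · rw [hb i hi]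
                split_ifs <;> simp [hδ0.le]
              · have h2 : ¬ Γ l = i := fun h => hi ⟨l, h⟩
                have h3 : i ≠ 0 := fun h => hi ⟨0, h ▸ (hΓ 0).2 rfl⟩
                have h4 : a i = δ := by simp only [ha, h3, hi, if_false]
                have h5 : |b i l| ≤ 1 := by
                  have := PiLp.norm_apply_le (b i) l
                  rwa [b.orthonormal.1 i, Real.norm_eq_abs] at this
                rw [if_neg h2, sub_zero, abs_mul, abs_of_pos (hy1 i).1]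
                have := (hy1 i).2
                nlinarith [(hy1 i).1, abs_nonneg (b i l)]
          _ = η := by
              simp only [Finset.sum_const, Finset.card_univ, Fintype.card_fin, nsmul_eq_mul, hδ]
              push_cast
              field_simp
      have h6 : a (Γ l) = √(fib Γ (Γ l)) * (1 - 2 * η) := by
        have h7 : Γ l ≠ 0 := fun h => hl ((hΓ l).1 h)
        have h8 : Γ l ∈ Set.range Γ := ⟨l, rfl⟩
        simp only [ha, h7, h8, if_false, if_true]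
      have h9 : 0 < y (Γ l) * (√(fib Γ (Γ l)))⁻¹ := mul_pos (hy1 _).1 (inv_pos.2 hw)
      have h10 : y (Γ l) * (√(fib Γ (Γ l)))⁻¹ < 1 - 2 * η := by
        rw [← div_eq_mul_inv, div_lt_iff₀ hw, mul_comm, ← h6]
        exact (hy1 _).2
      have := abs_le.1 herr
      constructor <;> linarith [this.1, this.2]
  · have hη2 : (1 - 2 * η) ^ 2 ≤ 1 := by nlinarith
    rw [le_div_iff₀ (pow_pos hη 2), Fin.sum_univ_succ, add_mul, Finset.sum_mul]
    refine le_trans ?_ (mul_le_mul_of_nonneg_left (hs j) (sq_nonneg π))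
    rw [mul_add, Finset.mul_sum]
    refine add_le_add ?_ (Finset.sum_le_sum fun i _ => le_of_eq ?_)
    · have : a 0 = k := by simp [ha]
      rw [this]
      calc _ ≤ (π * N j 0 / k) ^ 2 * 1 := mul_le_mul_of_nonneg_left hη2 (sq_nonneg _)
        _ = _ := by ring
    · by_cases hi : i.succ ∈ Set.range Γ
      · have h6 : a i.succ = √(fib Γ i.succ) * (1 - 2 * η) := by
          simp only [ha, Fin.succ_ne_zero, hi, if_false, if_true]
        have hp : (0 : ℝ) < fib Γ i.succ := by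
          obtain ⟨l, hl⟩ := hi
          rw [← hl]
          exact Nat.cast_pos.2 (fib_pos Γ l)
        rw [h6, div_pow, mul_pow, mul_pow, Real.sq_sqrt hp.le]
        field_simp
      · simp [hN0 j _ hi]

noncomputable def mu {d : ℕ} (k : ℕ) (Ω : Set (E d)) : ℝ := sInf {M | Adm k Ω M}

noncomputable def alpha (k d : ℕ) : ℝ :=
  sInf {r | ∃ Ω₁ Ω₂ : Set (E d),
    (Ω₁.Nonempty ∧ IsOpen Ω₁ ∧ Convex ℝ Ω₁ ∧ Bornology.IsBounded Ω₁) ∧
    (Ω₂.Nonempty ∧ IsOpen Ω₂ ∧ Convex ℝ Ω₂ ∧ Bornology.IsBounded Ω₂) ∧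
    Ω₁ ⊆ Ω₂ ∧ r = mu k Ω₁ / mu k Ω₂}

theorem mu_nonneg {d k : ℕ} {Ω : Set (E d)} (ho : IsOpen Ω) (hb : Bornology.IsBounded Ω) :
    0 ≤ mu k Ω := Real.sInf_nonneg fun _ h => Adm.nonneg ho hb h

theorem mu_outer (n k : ℕ) (hk : 1 ≤ k) :
    π ^ 2 ≤ mu k (box (EuclideanSpace.basisFun (Fin (n + 1)) ℝ) 0
      (Fin.cons (k : ℝ) fun _ => 1)) := by
  refine le_csInf ?_ fun M hM => lower _ _ k hM
  have hk' : (0 : ℝ) < k := Nat.cast_pos.2 hk
  refine ⟨∑ j : Fin (k + 1), ∑ l : Fin (n + 1),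
    (π * (j : ℕ) / (Fin.cons (k : ℝ) (fun _ => 1) : Fin (n + 1) → ℝ) l) ^ 2,
    upper _ _ (fun i => ?_) (fun j _ => (j : ℕ)) (fun j j' h => Fin.ext (congrFun h 0))
      fun j => ?_⟩
  · refine Fin.cases ?_ (fun j => ?_) i
    · simpa using hk'
    · simp
  · exact Finset.single_le_sum (f := fun j : Fin (k + 1) => ∑ l : Fin (n + 1),
      (π * (j : ℕ) / (Fin.cons (k : ℝ) (fun _ => 1) : Fin (n + 1) → ℝ) l) ^ 2)
      (fun j _ => Finset.sum_nonneg fun l _ => sq_nonneg _) (Finset.mem_univ j)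

theorem alpha_le {n : ℕ} (Γ : Fin (n + 1) → Fin (n + 1)) (hΓ : ∀ l, Γ l = 0 ↔ l = 0)
    {k : ℕ} (hk : 1 ≤ k) (N : Fin (k + 1) → Fin (n + 1) → ℕ) (hN : Function.Injective N)
    (hN0 : ∀ j i, i ∉ Set.range Γ → N j i = 0) {s : ℝ}
    (hs : ∀ j, (N j 0 : ℝ) ^ 2 / k ^ 2 + ∑ i : Fin n, (N j i.succ : ℝ) ^ 2 / fib Γ i.succ ≤ s) :
    alpha k (n + 1) ≤ s := by
  have hk' : (0 : ℝ) < k := Nat.cast_pos.2 hk
  have hs0 : 0 ≤ s := le_trans (by positivity) (hs 0)
  have key : ∀ η : ℝ, 0 < η → η < 1 / 2 → alpha k (n + 1) ≤ s / (1 - 2 * η) ^ 2 := by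
    intro η h0 h1
    obtain ⟨b, p, a, ha, hsub, hA⟩ := inner_box Γ hΓ hk N hN hN0 hs h0 h1
    have h2 := mu_outer n k hk
    have h3 : mu k (box b p a) ≤ π ^ 2 * s / (1 - 2 * η) ^ 2 :=
      csInf_le ⟨0, fun M hM => Adm.nonneg (box_open b p a) (box_bounded b p a) hM⟩ hA
    have hpi : 0 < π ^ 2 := by positivity
    refine csInf_le_of_le (b := mu k (box b p a) / mu k (box (EuclideanSpace.basisFun
      (Fin (n + 1)) ℝ) 0 (Fin.cons (k : ℝ) fun _ => 1))) ⟨0, ?_⟩ ⟨_, _,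
      ⟨box_nonempty b p a ha, box_open _ _ _, box_convex _ _ _, box_bounded _ _ _⟩,
      ⟨(box_nonempty b p a ha).mono hsub, box_open _ _ _, box_convex _ _ _, box_bounded _ _ _⟩,
      hsub, rfl⟩ ?_
    · rintro r ⟨Ω₁, Ω₂, h₁, h₂, -, rfl⟩
      exact div_nonneg (mu_nonneg h₁.2.1 h₁.2.2.2) (mu_nonneg h₂.2.1 h₂.2.2.2)
    · rw [div_le_iff₀ (hpi.trans_le h2)]
      refine h3.trans ?_
      rw [mul_div_assoc, mul_comm]
      exact mul_le_mul_of_nonneg_left h2 (by positivity)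
  have hc : ContinuousAt (fun η : ℝ => s / (1 - 2 * η) ^ 2) 0 :=
    ContinuousAt.div (by fun_prop) (by fun_prop) (by norm_num)
  have hcl : (0 : ℝ) ∈ closure (Ioo (0 : ℝ) (1 / 2)) := by
    rw [closure_Ioo (by norm_num)]
    exact ⟨le_rfl, by norm_num⟩
  have := ge_of_tendsto (f := fun η : ℝ => s / (1 - 2 * η) ^ 2)
    (x := nhdsWithin 0 (Ioo 0 (1 / 2))) (hx := mem_closure_iff_nhdsWithin_neBot.1 hcl)
    (hc.tendsto.mono_left nhdsWithin_le_nhds)
    (eventually_nhdsWithin_of_forall fun η hη => key η hη.1 hη.2)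
  simpa using this

end Pool.Agent.P.MP_5c8462_an
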