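import Pool.Agent.P.MP_5c8462_an.Geo

set_option autoImplicit false

namespace Pool.Agent.P.MP_5c8462_an

open MeasureTheory Real Set

theorem diag (d k : ℕ) (hd : 2 ≤ d) (hk : 1 ≤ k) (S : Finset (ℕ × ℕ)) (hS : k + 1 ≤ S.card)
    (s : ℝ) (hs : ∀ z ∈ S, (z.1 : ℝ) ^ 2 / k ^ 2 + (z.2 : ℝ) ^ 2 / (d - 1) ≤ s) :
    alpha k d ≤ s := by
  obtain ⟨n, rfl⟩ : ∃ n, d = n + 1 + 1 := ⟨d - 2, by omega⟩
  set Γ : Fin (n + 1 + 1) → Fin (n + 1 + 1) := fun l => if l = 0 then 0 else Fin.succ 0 with hΓ
  set z : Fin (k + 1) → ℕ × ℕ := fun j => (S.equivFin.symm (Fin.castLE hS j) : ℕ × ℕ) with hz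
  have hzS : ∀ j, z j ∈ S := fun j => (S.equivFin.symm (Fin.castLE hS j)).2
  have hzi : Function.Injective z := fun j j' h =>
    Fin.castLE_injective hS (S.equivFin.symm.injective (Subtype.ext h))
  have hfib : fib Γ (Fin.succ 0) = n + 1 := by
    have : (Finset.univ.filter fun l => Γ l = Fin.succ 0) = Finset.univ.erase 0 := by
      ext l
      by_cases hl : l = 0
      · simp [hΓ, hl]
      · simp [hΓ, hl]
    rw [fib, this, Finset.card_erase_of_mem (Finset.mem_univ _)]
    simp
  refine alpha_le Γ (fun l => ?_) hk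
    (fun j => Fin.cons (z j).1 (Fin.cons (z j).2 fun _ => 0)) (fun j j' h => ?_)
    (fun j i hi => ?_) fun j => ?_
  · by_cases hl : l = 0 <;> simp [hΓ, hl]
  · apply hzi
    have h0 := congrFun h 0
    have h1 := congrFun h (Fin.succ 0)
    simp only [Fin.cons_zero, Fin.cons_succ] at h0 h1
    exact Prod.ext h0 h1
  · revert hi
    refine Fin.cases (fun hi => ?_) (fun i => Fin.cases (fun hi => ?_) (fun i _ => ?_) i) i
    · exact absurd ⟨0, by simp [hΓ]⟩ hi
    · exact absurd ⟨Fin.succ 0, by simp [hΓ]⟩ hi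
    · simp only [Fin.cons_succ]
  · rw [Fin.sum_univ_succ, hfib]
    have := hs _ (hzS j)
    simp only [Fin.cons_zero, Fin.cons_succ]
    push_cast at this ⊢
    simpa using this

theorem nine (d k : ℕ) (hd : 3 ≤ d) (hk : 1 ≤ k) : alpha k d ≤ 9 / 16 := by
  have hk' : (0 : ℝ) < k := Nat.cast_pos.2 hk
  refine diag d k (by omega) hk
    ((Finset.range (k + 1)).image fun j => if j ≤ 3 * k / 4 then (j, 0) else (j - 3 * k / 4 - 1, 1))
    ?_ _ fun z hz => ?_
  · rw [Finset.card_image_of_injective, Finset.card_range]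
    intro j j' h
    simp only at h
    split_ifs at h <;> simp only [Prod.mk.injEq] at h <;> omega
  · obtain ⟨j, hj, rfl⟩ := Finset.mem_image.1 hz
    have hj' := Finset.mem_range.1 hj
    split_ifs with h
    · have h1 : (4 * j : ℝ) ≤ 3 * k := by exact_mod_cast (by omega : 4 * j ≤ 3 * k)
      have h2 : (j : ℝ) ^ 2 / k ^ 2 ≤ 9 / 16 := by
        rw [div_le_iff₀ (by positivity)]
        nlinarith [Nat.cast_nonneg (α := ℝ) j]
      simpa using h2
    · have h1 : (4 * (j - 3 * k / 4 - 1 : ℕ) : ℝ) ≤ k := by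
        exact_mod_cast (by omega : 4 * (j - 3 * k / 4 - 1) ≤ k)
      have h2 : ((j - 3 * k / 4 - 1 : ℕ) : ℝ) ^ 2 / k ^ 2 ≤ 1 / 16 := by
        rw [div_le_iff₀ (by positivity)]
        nlinarith [Nat.cast_nonneg (α := ℝ) (j - 3 * k / 4 - 1)]
      have h3 : (3 : ℝ) ≤ d := by exact_mod_cast hd
      have h4 : (1 : ℝ) / (d - 1) ≤ 1 / 2 := one_div_le_one_div_of_le (by norm_num) (by linarith)
      simp only [Nat.cast_one, one_pow]
      linarith

theorem three (k : ℕ) (hk : 3 ≤ k) : alpha k 3 < (k / (k + 1)) ^ 2 := by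
  rcases hk.eq_or_lt with rfl | hk
  · have := diag 3 3 (by norm_num) (by norm_num) {(0, 0), (1, 0), (2, 0), (0, 1)} (by decide) (1 / 2)
      (by
        intro z hz
        simp only [Finset.mem_insert, Finset.mem_singleton] at hz
        rcases hz with rfl | rfl | rfl | rfl <;> norm_num)
    refine this.trans_lt ?_
    norm_num
  · refine (nine 3 k le_rfl (by omega)).trans_lt ?_
    have h4 : (4 : ℝ) ≤ k := by exact_mod_cast hk
    have h5 : (4 : ℝ) / 5 ≤ k / (k + 1) := by
      rw [div_le_div_iff₀ (by norm_num) (by linarith)]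
      linarith
    nlinarith

theorem groups (d k r q : ℕ) (hk : 1 ≤ k) (hr : 1 ≤ r) (hq : 1 ≤ q) (hd : r * q + 1 ≤ d) :
    alpha k d ≤ 1 / 4 ^ r + r / q := by
  obtain ⟨n, rfl⟩ : ∃ n, d = n + 1 := ⟨d - 1, by omega⟩
  have hrn : r ≤ n := by nlinarith
  have hk' : (0 : ℝ) < k := Nat.cast_pos.2 hk
  have hq' : (0 : ℝ) < q := Nat.cast_pos.2 hq
  set Γ : Fin (n + 1) → Fin (n + 1) := fun l =>
    if l = 0 then 0 else ⟨min ((l.val - 1) / q) (r - 1) + 1, by omega⟩ with hΓ
  have hmem : ∀ g t : ℕ, g < r → t < q → g * q + t + 1 < n + 1 := by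
    intro g t hg ht
    have : (g + 1) * q ≤ r * q := Nat.mul_le_mul_right q hg
    nlinarith
  have hval : ∀ (g : Fin n) (hg : g.val < r) (t : ℕ) (ht : t < q),
      Γ ⟨g.val * q + t + 1, hmem _ _ hg ht⟩ = g.succ := by
    intro g hg t ht
    have h1 : (⟨g.val * q + t + 1, hmem _ _ hg ht⟩ : Fin (n + 1)) ≠ 0 := by
      simp [Fin.ext_iff]
    have h2 : (g.val * q + t) / q = g.val := by
      rw [mul_comm, Nat.mul_add_div (by omega), Nat.div_eq_of_lt ht, add_zero]
    have h3 : Γ ⟨g.val * q + t + 1, hmem _ _ hg ht⟩ =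
        ⟨min ((g.val * q + t + 1 - 1) / q) (r - 1) + 1, by omega⟩ := if_neg h1
    rw [h3]
    apply Fin.ext
    simp only [Fin.val_succ, Nat.add_sub_cancel, h2]
    omega
  have hfib : ∀ g : Fin n, g.val < r → q ≤ fib Γ g.succ := by
    intro g hg
    have := Finset.card_le_card_of_injOn (s := (Finset.univ : Finset (Fin q)))
      (t := Finset.univ.filter fun l => Γ l = g.succ)
      (fun t => ⟨g.val * q + t.val + 1, hmem _ _ hg t.2⟩)
      (fun t _ => by simpa using hval g hg t.val t.2)
      (fun t _ t' _ h => by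
        simp only [Fin.mk.injEq] at h
        exact Fin.ext (by omega))
    simpa [fib] using this
  refine alpha_le Γ (fun l => ?_) hk
    (fun j => Fin.cons (j.val / 2 ^ r)
      fun g : Fin n => if g.val < r ∧ j.val.testBit g.val then 1 else 0) (fun j j' h => ?_)
    (fun j i hi => ?_) fun j => ?_
  · by_cases hl : l = 0
    · simp [hΓ, hl]
    · have h3 : Γ l = ⟨min ((l.val - 1) / q) (r - 1) + 1, by omega⟩ := if_neg hl
      refine ⟨fun h => ?_, fun h => absurd h hl⟩
      rw [h3] at h
      simpa using congrArg Fin.val h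
  · have h0 := congrFun h 0
    simp only [Fin.cons_zero] at h0
    refine Fin.ext (Nat.eq_of_testBit_eq fun i => ?_)
    by_cases hi : i < r
    · have h1 := congrFun h (Fin.succ ⟨i, by omega⟩)
      simp only [Fin.cons_succ, hi, true_and] at h1
      cases h2 : j.val.testBit i <;> cases h3 : j'.val.testBit i <;> simp_all
    · have h1 := congrArg (fun x => Nat.testBit x (i - r)) h0
      simp only [Nat.testBit_div_two_pow] at h1
      rwa [show i - r + r = i by omega] at h1
  · revert hi
    refine Fin.cases (fun hi => ?_) (fun g hi => ?_) i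
    · exact absurd ⟨0, by simp [hΓ]⟩ hi
    · simp only [Fin.cons_succ]
      rw [if_neg]
      rintro ⟨hg, -⟩
      exact hi ⟨_, hval g hg 0 (by omega)⟩
  · simp only [Fin.cons_zero, Fin.cons_succ]
    refine add_le_add ?_ ?_
    · have h1 : ((j.val / 2 ^ r : ℕ) : ℝ) * 2 ^ r ≤ k := by
        have : j.val / 2 ^ r * 2 ^ r ≤ k := (Nat.div_mul_le_self _ _).trans (by omega)
        exact_mod_cast this
      rw [div_le_div_iff₀ (by positivity) (by positivity), one_mul,
        show (4 : ℝ) ^ r = (2 ^ r) ^ 2 by rw [← pow_mul, mul_comm, pow_mul]; norm_num, ← mul_pow]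
      exact pow_le_pow_left₀ (by positivity) h1 2
    · calc _ ≤ ∑ g : Fin n, if g.val < r then (1 : ℝ) / q else 0 := by
            refine Finset.sum_le_sum fun g _ => ?_
            by_cases hg : g.val < r
            · have h2 : (q : ℝ) ≤ fib Γ g.succ := by exact_mod_cast hfib g hg
              rw [if_pos hg]
              split_ifs
              · simpa using inv_anti₀ hq' h2
              · simp
            · simp [hg]
        _ ≤ r / q := by
            rw [← Finset.sum_filter, Finset.sum_const, nsmul_eq_mul, mul_one_div]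
            refine div_le_div_of_nonneg_right ?_ hq'.le
            have : (Finset.univ.filter fun g : Fin n => g.val < r).card ≤ (Finset.range r).card :=
              Finset.card_le_card_of_injOn (fun g => g.val) (fun g hg => by simpa using hg)
                fun g _ g' _ h => Fin.ext h
            rw [Finset.card_range] at this
            exact_mod_cast this

theorem crit (d k r q : ℕ) (hk : 1 ≤ k) (hr : 1 ≤ r) (hq : 1 ≤ q) (hd : r * q + 1 ≤ d)
    (S : Finset (ℕ × (Fin r → ℕ))) (hS : k + 1 ≤ S.card) (s : ℝ)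
    (hs : ∀ z ∈ S, (z.1 : ℝ) ^ 2 / k ^ 2 + (∑ i, (z.2 i : ℝ) ^ 2) / q ≤ s) :
    alpha k d ≤ s := by
  obtain ⟨n, rfl⟩ : ∃ n, d = n + 1 := ⟨d - 1, by omega⟩
  have hrn : r ≤ n := by nlinarith
  have hq' : (0 : ℝ) < q := Nat.cast_pos.2 hq
  set z : Fin (k + 1) → ℕ × (Fin r → ℕ) :=
    fun j => (S.equivFin.symm (Fin.castLE hS j) : ℕ × (Fin r → ℕ)) with hz
  have hzS : ∀ j, z j ∈ S := fun j => (S.equivFin.symm (Fin.castLE hS j)).2
  have hzi : Function.Injective z := fun j j' h =>
    Fin.castLE_injective hS (S.equivFin.symm.injective (Subtype.ext h))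
  set Γ : Fin (n + 1) → Fin (n + 1) := fun l =>
    if l = 0 then 0 else ⟨min ((l.val - 1) / q) (r - 1) + 1, by omega⟩ with hΓ
  have hmem : ∀ g t : ℕ, g < r → t < q → g * q + t + 1 < n + 1 := by
    intro g t hg ht
    have : (g + 1) * q ≤ r * q := Nat.mul_le_mul_right q hg
    nlinarith
  have hval : ∀ (g : Fin n) (hg : g.val < r) (t : ℕ) (ht : t < q),
      Γ ⟨g.val * q + t + 1, hmem _ _ hg ht⟩ = g.succ := by
    intro g hg t ht
    have h1 : (⟨g.val * q + t + 1, hmem _ _ hg ht⟩ : Fin (n + 1)) ≠ 0 := by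
      simp [Fin.ext_iff]
    have h2 : (g.val * q + t) / q = g.val := by
      rw [mul_comm, Nat.mul_add_div (by omega), Nat.div_eq_of_lt ht, add_zero]
    have h3 : Γ ⟨g.val * q + t + 1, hmem _ _ hg ht⟩ =
        ⟨min ((g.val * q + t + 1 - 1) / q) (r - 1) + 1, by omega⟩ := if_neg h1
    rw [h3]
    apply Fin.ext
    simp only [Fin.val_succ, Nat.add_sub_cancel, h2]
    omega
  have hfib : ∀ g : Fin n, g.val < r → q ≤ fib Γ g.succ := by
    intro g hg
    have := Finset.card_le_card_of_injOn (s := (Finset.univ : Finset (Fin q)))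
      (t := Finset.univ.filter fun l => Γ l = g.succ)
      (fun t => ⟨g.val * q + t.val + 1, hmem _ _ hg t.2⟩)
      (fun t _ => by simpa using hval g hg t.val t.2)
      (fun t _ t' _ h => by
        simp only [Fin.mk.injEq] at h
        exact Fin.ext (by omega))
    simpa [fib] using this
  refine alpha_le Γ (fun l => ?_) hk
    (fun j => Fin.cons (z j).1
      fun g : Fin n => if h : g.val < r then (z j).2 ⟨g.val, h⟩ else 0) (fun j j' h => ?_)
    (fun j i hi => ?_) fun j => ?_
  · by_cases hl : l = 0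
    · simp [hΓ, hl]
    · have h3 : Γ l = ⟨min ((l.val - 1) / q) (r - 1) + 1, by omega⟩ := if_neg hl
      refine ⟨fun h => ?_, fun h => absurd h hl⟩
      rw [h3] at h
      simpa using congrArg Fin.val h
  · have h0 := congrFun h 0
    simp only [Fin.cons_zero] at h0
    refine hzi (Prod.ext h0 (funext fun i => ?_))
    have h1 := congrFun h (Fin.succ ⟨i.val, by omega⟩)
    simpa only [Fin.cons_succ, i.2, dite_true] using h1
  · revert hi
    refine Fin.cases (fun hi => ?_) (fun g hi => ?_) i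
    · exact absurd ⟨0, by simp [hΓ]⟩ hi
    · simp only [Fin.cons_succ]
      rw [dif_neg]
      intro hg
      exact hi ⟨_, hval g hg 0 (by omega)⟩
  · simp only [Fin.cons_zero, Fin.cons_succ]
    refine le_trans (add_le_add le_rfl ?_) (hs _ (hzS j))
    calc _ ≤ ∑ g : Fin n, (if h : g.val < r then ((z j).2 ⟨g.val, h⟩ : ℝ) ^ 2 else 0) / q := by
          refine Finset.sum_le_sum fun g _ => ?_
          by_cases hg : g.val < r
          · have h2 : (q : ℝ) ≤ fib Γ g.succ := by exact_mod_cast hfib g hg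
            simp only [hg, dite_true]
            exact div_le_div_of_nonneg_left (sq_nonneg _) hq' h2
          · simp [hg]
      _ = _ := by
          rw [← Finset.sum_div]
          congr 1
          symm
          refine Finset.sum_of_injOn (Fin.castLE hrn) (Fin.castLE_injective hrn).injOn
            (fun _ _ => Finset.mem_coe.2 (Finset.mem_univ _)) (fun g _ hg => ?_) fun i _ => ?_
          · rw [dif_neg]
            intro h
            exact hg ⟨⟨g.val, h⟩, by simp, Fin.ext rfl⟩
          · simp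

end Pool.Agent.P.MP_5c8462_an
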