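import Pool.Agent.P.MP_5c8462_an.Box

set_option autoImplicit false

namespace Pool.Agent.P.MP_5c8462_an

open MeasureTheory Real Set

noncomputable def J (a : ℝ) (z : ℤ) : ℝ := ∫ t in Icc 0 a, cos (π * z / a * t)

theorem J_zero {a : ℝ} (ha : 0 < a) : J a 0 = a := by
  simp [J, ha.le]

theorem J_ne {a : ℝ} (ha : 0 < a) {z : ℤ} (hz : z ≠ 0) : J a z = 0 := by
  have hz' : (z : ℝ) ≠ 0 := Int.cast_ne_zero.2 hz
  have hc : π * z / a ≠ 0 := div_ne_zero (mul_ne_zero pi_pos.ne' hz') ha.ne'
  rw [J, integral_Icc_eq_integral_Ioc, ← intervalIntegral.integral_of_le ha.le,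
    intervalIntegral.integral_comp_mul_left (fun t => cos t) hc, integral_cos]
  have : π * z / a * a = z * π := by field_simp
  rw [this]
  simp

theorem J_nonneg {a : ℝ} (ha : 0 < a) (z : ℤ) : 0 ≤ J a z := by
  by_cases hz : z = 0
  · rw [hz, J_zero ha]; exact ha.le
  · rw [J_ne ha hz]

theorem cc_eq (a : ℝ) (m n : ℕ) :
    ∫ t in Icc 0 a, cos (π * m / a * t) * cos (π * n / a * t) =
      (J a (m - n) + J a (m + n)) / 2 := by
  unfold J
  rw [← integral_add, ← integral_div]
  · refine integral_congr_ae (Filter.Eventually.of_forall fun t => ?_)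
    have e1 : π * ((m : ℤ) - n : ℤ) / a * t = π * m / a * t - π * n / a * t := by
      push_cast; ring
    have e2 : π * ((m : ℤ) + n : ℤ) / a * t = π * m / a * t + π * n / a * t := by
      push_cast; ring
    simp only [e1, e2, cos_sub, cos_add]
    ring
  · exact Continuous.integrableOn_Icc (by fun_prop)
  · exact Continuous.integrableOn_Icc (by fun_prop)

theorem ss_eq (a : ℝ) (m n : ℕ) :
    ∫ t in Icc 0 a, sin (π * m / a * t) * sin (π * n / a * t) =
      (J a (m - n) - J a (m + n)) / 2 := by
  unfold J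
  rw [← integral_sub, ← integral_div]
  · refine integral_congr_ae (Filter.Eventually.of_forall fun t => ?_)
    have e1 : π * ((m : ℤ) - n : ℤ) / a * t = π * m / a * t - π * n / a * t := by
      push_cast; ring
    have e2 : π * ((m : ℤ) + n : ℤ) / a * t = π * m / a * t + π * n / a * t := by
      push_cast; ring
    simp only [e1, e2, cos_sub, cos_add]
    ring
  · exact Continuous.integrableOn_Icc (by fun_prop)
  · exact Continuous.integrableOn_Icc (by fun_prop)

variable {d : ℕ}

/-- One variable factor: a sine if the flag is set, a cosine otherwise. -/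
noncomputable def tr (s : Bool) (a : ℝ) (n : ℕ) (t : ℝ) : ℝ :=
  if s then sin (π * n / a * t) else cos (π * n / a * t)

theorem tr_cont (s : Bool) (a : ℝ) (n : ℕ) : Continuous (tr s a n) := by
  unfold tr
  cases s <;> simp <;> fun_prop

theorem tr_orth (s : Bool) {a : ℝ} (ha : 0 < a) {m n : ℕ} (h : m ≠ n) :
    ∫ t in Icc 0 a, tr s a m t * tr s a n t = 0 := by
  have h1 : J a (m - n) = 0 := J_ne ha (by omega)
  have h2 : J a (m + n) = 0 := J_ne ha (by omega)
  cases s
  · simp only [tr, Bool.false_eq_true, if_false]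
    rw [cc_eq, h1, h2]; simp
  · simp only [tr, if_true]
    rw [ss_eq, h1, h2]; simp

theorem tr_le (s : Bool) {a : ℝ} (ha : 0 < a) (n : ℕ) :
    ∫ t in Icc 0 a, tr s a n t * tr s a n t ≤ ∫ t in Icc 0 a, tr false a n t * tr false a n t := by
  cases s
  · exact le_rfl
  · simp only [tr, Bool.false_eq_true, if_false, if_true]
    rw [ss_eq, cc_eq]
    linarith [J_nonneg ha (n + n)]

theorem tr_pos {a : ℝ} (ha : 0 < a) (n : ℕ) :
    0 < ∫ t in Icc 0 a, tr false a n t * tr false a n t := by
  simp only [tr, Bool.false_eq_true, if_false]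
  rw [cc_eq, sub_self, J_zero ha]
  linarith [J_nonneg ha (n + n)]

noncomputable def T (s : Fin d → Bool) (a : Fin d → ℝ) (N : Fin d → ℕ) (y : Fin d → ℝ) : ℝ :=
  ∏ i, tr (s i) (a i) (N i) (y i)

theorem T_cont (s : Fin d → Bool) (a : Fin d → ℝ) (N : Fin d → ℕ) : Continuous (T s a N) :=
  continuous_finsetProd _ fun i _ => (tr_cont _ _ _).comp (continuous_apply i)

theorem T_int (s : Fin d → Bool) (a : Fin d → ℝ) (N N' : Fin d → ℕ) :
    ∫ y in Icc 0 a, T s a N y * T s a N' y =
      ∏ i, ∫ t in Icc 0 (a i), tr (s i) (a i) (N i) t * tr (s i) (a i) (N' i) t := by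
  have e1 : volume.restrict (Icc 0 a) =
      Measure.pi fun i => volume.restrict (Icc (0 : ℝ) (a i)) := by
    rw [← Set.pi_univ_Icc, volume_pi, Measure.restrict_pi_pi]
    rfl
  rw [e1, ← integral_fintype_prod_eq_prod]
  simp only [T, Finset.prod_mul_distrib]

theorem T_orth (s : Fin d → Bool) {a : Fin d → ℝ} (ha : ∀ i, 0 < a i) {N N' : Fin d → ℕ}
    (h : N ≠ N') : ∫ y in Icc 0 a, T s a N y * T s a N' y = 0 := by
  obtain ⟨i, hi⟩ := Function.ne_iff.1 h
  rw [T_int]
  exact Finset.prod_eq_zero (Finset.mem_univ i) (tr_orth _ (ha i) hi)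

theorem T_le (s : Fin d → Bool) {a : Fin d → ℝ} (ha : ∀ i, 0 < a i) (N : Fin d → ℕ) :
    ∫ y in Icc 0 a, T s a N y * T s a N y ≤
      ∫ y in Icc 0 a, T (fun _ => false) a N y * T (fun _ => false) a N y := by
  rw [T_int, T_int]
  exact Finset.prod_le_prod (fun i _ => integral_nonneg fun t => mul_self_nonneg _)
    fun i _ => tr_le _ (ha i) _

theorem T_pos {a : Fin d → ℝ} (ha : ∀ i, 0 < a i) (N : Fin d → ℕ) :
    0 < ∫ y in Icc 0 a, T (fun _ => false) a N y * T (fun _ => false) a N y := by
  rw [T_int]
  exact Finset.prod_pos fun i _ => tr_pos (ha i) _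

theorem orth_sum {K : ℕ} (s : Fin d → Bool) {a : Fin d → ℝ} (ha : ∀ i, 0 < a i)
    (N : Fin K → Fin d → ℕ) (hN : Function.Injective N) (c : Fin K → ℝ) :
    ∫ y in Icc 0 a, (∑ j, c j * T s a (N j) y) ^ 2 =
      ∑ j, c j ^ 2 * ∫ y in Icc 0 a, T s a (N j) y * T s a (N j) y := by
  have e : ∀ y, (∑ j, c j * T s a (N j) y) ^ 2 =
      ∑ j, ∑ j', c j * c j' * (T s a (N j) y * T s a (N j') y) := by
    intro y
    rw [sq, Finset.sum_mul_sum]
    refine Finset.sum_congr rfl fun j _ => Finset.sum_congr rfl fun j' _ => by ring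
  have hi : ∀ j j', Integrable (fun y => c j * c j' * (T s a (N j) y * T s a (N j') y))
      (volume.restrict (Icc 0 a)) := fun j j' =>
    (continuous_const.mul ((T_cont _ _ _).mul (T_cont _ _ _))).continuousOn.integrableOn_compact
      isCompact_Icc
  simp only [e]
  rw [integral_finsetSum _ fun j _ => integrable_finsetSum _ fun j' _ => hi j j']
  refine Finset.sum_congr rfl fun j _ => ?_
  rw [integral_finsetSum _ fun j' _ => hi j j', Finset.sum_eq_single j]
  · rw [integral_const_mul, sq]
  · intro j' _ hj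
    rw [integral_const_mul, T_orth s ha fun h => hj (hN h).symm, mul_zero]
  · simp

theorem T_deriv (a : Fin d → ℝ) (N : Fin d → ℕ) (y : Fin d → ℝ) (l : Fin d) :
    HasDerivAt (fun s => T (fun _ => false) a N (Function.update y l s))
      (-(π * N l / a l) * T (fun i => decide (i = l)) a N y) (y l) := by
  have e : (fun s => T (fun _ => false) a N (Function.update y l s)) =
      fun s => cos (π * N l / a l * s) * ∏ i ∈ Finset.univ.erase l, tr false (a i) (N i) (y i) := by
    funext s
    rw [T, ← Finset.mul_prod_erase _ _ (Finset.mem_univ l), Function.update_self]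
    congr 1
    exact Finset.prod_congr rfl fun j hj => by
      rw [Function.update_of_ne (Finset.ne_of_mem_erase hj)]
  have e2 : T (fun i => decide (i = l)) a N y =
      sin (π * N l / a l * y l) * ∏ i ∈ Finset.univ.erase l, tr false (a i) (N i) (y i) := by
    rw [T, ← Finset.mul_prod_erase _ _ (Finset.mem_univ l)]
    congr 1
    · simp [tr]
    · exact Finset.prod_congr rfl fun j hj => by
        rw [decide_eq_false (Finset.ne_of_mem_erase hj)]
  rw [e, e2]
  have hl : HasDerivAt (fun s => π * N l / a l * s) (π * N l / a l) (y l) := by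
    simpa using (hasDerivAt_id (y l)).const_mul (π * N l / a l)
  refine (hl.cos.mul_const _).congr_deriv ?_
  ring

theorem upper (b : OrthonormalBasis (Fin d) ℝ (E d)) (p : E d) {a : Fin d → ℝ}
    (ha : ∀ i, 0 < a i) {k : ℕ} (N : Fin (k + 1) → Fin d → ℕ) (hN : Function.Injective N)
    {M : ℝ} (hM : ∀ j, ∑ l, (π * N j l / a l) ^ 2 ≤ M) : Adm k (box b p a) M := by
  set f : Fin (k + 1) → E d → ℝ :=
    fun j x => T (fun _ => false) a (N j) fun i => inner ℝ (b i) (x - p) with hf
  have hfp : ∀ j y, f j (par b p y) = T (fun _ => false) a (N j) y := by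
    intro j y
    simp only [hf, inner_par]
  have hC : ∀ j, ContDiff ℝ 1 (f j) := by
    intro j
    simp only [hf, T, tr, Bool.false_eq_true, if_false]
    refine contDiff_prod fun i _ => ?_
    exact (contDiff_const.mul (contDiff_const.inner ℝ (contDiff_id.sub contDiff_const))).cos
  have hL2 : ∀ c : Fin (k + 1) → ℝ, ∫ x in box b p a, (∑ i, c i * f i x) ^ 2 =
      ∑ j, c j ^ 2 * ∫ y in Icc 0 a,
        T (fun _ => false) a (N j) y * T (fun _ => false) a (N j) y := by
    intro c
    rw [int_box]
    simp only [hfp]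
    exact orth_sum _ ha N hN c
  refine ⟨f, hC, fun c hc => ?_, fun c => ?_⟩
  · have h0 : ∫ x in box b p a, (∑ i, c i * f i x) ^ 2 = 0 := by
      rw [setIntegral_congr_fun (g := fun _ => 0) (box_open b p a).measurableSet]
      · simp
      · intro x hx
        simp [hc x hx]
    rw [hL2, Finset.sum_eq_zero_iff_of_nonneg
      fun j _ => mul_nonneg (sq_nonneg _) (T_pos ha _).le] at h0
    funext j
    have := (mul_eq_zero.1 (h0 j (Finset.mem_univ j))).resolve_right (T_pos ha _).ne'
    simpa using this
  · set u : E d → ℝ := fun x => ∑ i, c i * f i x with hu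
    have uC : ContDiff ℝ 1 u := ContDiff.sum fun i _ => contDiff_const.mul (hC i)
    have uD : Differentiable ℝ u := uC.differentiable (by norm_num)
    have hd : ∀ y l, fderiv ℝ u (par b p y) (b l) =
        ∑ j, (c j * -(π * N j l / a l)) * T (fun i => decide (i = l)) a (N j) y := by
      intro y l
      have h1 := par_deriv b p u uD y l (y l)
      rw [Function.update_eq_self] at h1
      simp only [hu, hfp] at h1
      have h2 := HasDerivAt.fun_sum (u := Finset.univ)
        fun j _ => (T_deriv a (N j) y l).const_mul (c j)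
      rw [h1.unique h2]
      exact Finset.sum_congr rfl fun j _ => by ring
    rw [hL2, int_box]
    simp only [b.norm_dual, hd]
    rw [integral_finsetSum]
    · simp only [orth_sum _ ha N hN]
      rw [Finset.sum_comm, Finset.mul_sum]
      refine Finset.sum_le_sum fun j _ => ?_
      set I := ∫ y in Icc 0 a, T (fun _ => false) a (N j) y * T (fun _ => false) a (N j) y with hI
      have hI0 : 0 < I := T_pos ha _
      calc _ ≤ ∑ l, (π * N j l / a l) ^ 2 * (c j ^ 2 * I) := by
            refine Finset.sum_le_sum fun l _ => ?_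
            have := mul_le_mul_of_nonneg_left (T_le (fun i => decide (i = l)) ha (N j))
              (sq_nonneg (c j * -(π * N j l / a l)))
            refine this.trans (le_of_eq ?_)
            rw [← hI]
            ring
        _ ≤ M * (c j ^ 2 * I) := by
            rw [← Finset.sum_mul]
            exact mul_le_mul_of_nonneg_right (hM j) (mul_nonneg (sq_nonneg _) hI0.le)
    · intro l _
      refine Continuous.integrableOn_Icc (Continuous.pow ?_ 2)
      exact continuous_finsetSum _ fun j _ => continuous_const.mul (T_cont _ _ _)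

end Pool.Agent.P.MP_5c8462_an
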