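import Mathlib

set_option autoImplicit false

namespace Pool.Agent.P.MP_5c8462_an

open MeasureTheory Real Set intervalIntegral

/-- Picone type inequality on `[p,q]` with comparison function `cos (a (x - c))`. -/
theorem picone (u g : ℝ → ℝ) (hu : ∀ x, HasDerivAt u (g x) x) (hg : Continuous g)
    (p q c a : ℝ) (hpq : p ≤ q) (ha : 0 < a) (hap : a < π)
    (hc : ∀ x ∈ Icc p q, |x - c| ≤ 1 / 2)
    (hp : u p = 0 ∨ p = c) (hq : u q = 0 ∨ q = c) :
    a ^ 2 * ∫ x in p..q, u x ^ 2 ≤ ∫ x in p..q, g x ^ 2 := by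
  have huc : Continuous u := continuous_iff_continuousAt.2 fun x => (hu x).continuousAt
  have hcos : ∀ x ∈ Icc p q, 0 < cos (a * (x - c)) := by
    intro x hx
    have h1 := abs_le.1 (hc x hx)
    apply cos_pos_of_mem_Ioo
    constructor <;> nlinarith [h1.1, h1.2]
  set ψ : ℝ → ℝ := fun x => -a * (sin (a * (x - c)) / cos (a * (x - c))) with hψ
  have hψd : ∀ x ∈ Icc p q, HasDerivAt ψ (-a ^ 2 - ψ x ^ 2) x := by
    intro x hx
    have hl : HasDerivAt (fun x => a * (x - c)) a x := by
      simpa using ((hasDerivAt_id x).sub_const c).const_mul a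
    have h1 := (hl.sin.fun_div hl.cos (hcos x hx).ne').const_mul (-a)
    refine h1.congr_deriv ?_
    have := (hcos x hx).ne'
    simp only [hψ]
    field_simp
    ring
  have hψc : ContinuousOn ψ (Icc p q) := fun x hx => (hψd x hx).continuousAt.continuousWithinAt
  have hW : ∀ x ∈ uIcc p q, HasDerivAt (fun x => u x ^ 2 * ψ x)
      (2 * u x * g x * ψ x + u x ^ 2 * (-a ^ 2 - ψ x ^ 2)) x := by
    intro x hx
    rw [uIcc_of_le hpq] at hx
    have h1 := ((hu x).fun_pow 2).fun_mul (hψd x hx)
    refine h1.congr_deriv ?_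
    simp
  have hint : IntervalIntegrable (fun x => 2 * u x * g x * ψ x + u x ^ 2 * (-a ^ 2 - ψ x ^ 2))
      volume p q := by
    apply ContinuousOn.intervalIntegrable
    rw [uIcc_of_le hpq]
    have h1 := huc.continuousOn (s := Icc p q)
    have h2 := hg.continuousOn (s := Icc p q)
    fun_prop
  have hFTC := integral_eq_sub_of_hasDerivAt hW hint
  have h0p : u p ^ 2 * ψ p = 0 := by
    rcases hp with h | h
    · simp [h]
    · simp [hψ, h]
  have h0q : u q ^ 2 * ψ q = 0 := by
    rcases hq with h | h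
    · simp [h]
    · simp [hψ, h]
  rw [h0p, h0q, sub_zero] at hFTC
  have hi1 : IntervalIntegrable (fun x => g x ^ 2) volume p q :=
    (hg.pow 2).intervalIntegrable _ _
  have hi2 : IntervalIntegrable (fun x => a ^ 2 * u x ^ 2) volume p q :=
    (continuous_const.mul (huc.pow 2)).intervalIntegrable _ _
  have hmono : ∫ x in p..q, (2 * u x * g x * ψ x + u x ^ 2 * (-a ^ 2 - ψ x ^ 2)) ≤
      ∫ x in p..q, (g x ^ 2 - a ^ 2 * u x ^ 2) := by
    apply integral_mono_on hpq hint (hi1.sub hi2)
    intro x _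
    nlinarith [sq_nonneg (g x - u x * ψ x)]
  rw [hFTC, intervalIntegral.integral_sub hi1 hi2, intervalIntegral.integral_const_mul] at hmono
  linarith

/-- Sharp Neumann Poincare inequality on an interval of length one. -/
theorem wirt (f g : ℝ → ℝ) (hf : ∀ x, HasDerivAt f (g x) x) (hg : Continuous g) (p : ℝ) :
    π ^ 2 * ((∫ x in Icc p (p + 1), f x ^ 2) - (∫ x in Icc p (p + 1), f x) ^ 2) ≤
      ∫ x in Icc p (p + 1), g x ^ 2 := by
  have hfc : Continuous f := continuous_iff_continuousAt.2 fun x => (hf x).continuousAt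
  have hp : p ≤ p + 1 := by linarith
  simp only [integral_Icc_eq_integral_Ioc, ← integral_of_le hp]
  set m := f (p + 1 / 2) with hm
  have hu : ∀ x, HasDerivAt (fun x => f x - m) (g x) x := fun x => (hf x).sub_const m
  have huc : Continuous fun x => (f x - m) ^ 2 := by fun_prop
  have hg2 : Continuous fun x => g x ^ 2 := by fun_prop
  have key : ∀ a : ℝ, 0 < a → a < π →
      a ^ 2 * ∫ x in p..p + 1, (f x - m) ^ 2 ≤ ∫ x in p..p + 1, g x ^ 2 := by
    intro a ha hap
    have h1 := picone (fun x => f x - m) g hu hg p (p + 1 / 2) p a (by linarith) ha hap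
      (fun x hx => abs_le.2 ⟨by linarith [hx.1], by linarith [hx.2]⟩) (Or.inr rfl)
      (Or.inl (by simp [hm]))
    have h2 := picone (fun x => f x - m) g hu hg (p + 1 / 2) (p + 1) (p + 1) a (by linarith) ha hap
      (fun x hx => abs_le.2 ⟨by linarith [hx.1], by linarith [hx.2]⟩) (Or.inl (by simp [hm]))
      (Or.inr rfl)
    rw [← integral_add_adjacent_intervals (b := p + 1 / 2) (huc.intervalIntegrable _ _)
      (huc.intervalIntegrable _ _), ← integral_add_adjacent_intervals (b := p + 1 / 2)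
      (hg2.intervalIntegrable _ _) (hg2.intervalIntegrable _ _)]
    linarith
  have key2 : π ^ 2 * ∫ x in p..p + 1, (f x - m) ^ 2 ≤ ∫ x in p..p + 1, g x ^ 2 := by
    have hc : Continuous fun a : ℝ => a ^ 2 * ∫ x in p..p + 1, (f x - m) ^ 2 := by fun_prop
    have hcl : π ∈ closure (Ioo 0 π) := by
      rw [closure_Ioo pi_pos.ne]
      exact ⟨pi_pos.le, le_rfl⟩
    exact le_of_tendsto (f := fun a : ℝ => a ^ 2 * ∫ x in p..p + 1, (f x - m) ^ 2)
      (x := nhdsWithin π (Ioo 0 π)) (hx := mem_closure_iff_nhdsWithin_neBot.1 hcl)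
      (hc.continuousAt.tendsto.mono_left nhdsWithin_le_nhds)
      (eventually_nhdsWithin_of_forall fun a ha => key a ha.1 ha.2)
  have e1 : ∫ x in p..p + 1, (f x - m) ^ 2 =
      (∫ x in p..p + 1, f x ^ 2) - 2 * m * (∫ x in p..p + 1, f x) + m ^ 2 := by
    have : (fun x => (f x - m) ^ 2) = fun x => f x ^ 2 - 2 * m * f x + m ^ 2 := by
      funext x; ring
    rw [this, intervalIntegral.integral_add, intervalIntegral.integral_sub, intervalIntegral.integral_const_mul]
    · simp
    · exact (hfc.pow 2).intervalIntegrable _ _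
    · exact (continuous_const.mul hfc).intervalIntegrable _ _
    · exact ((hfc.pow 2).sub (continuous_const.mul hfc)).intervalIntegrable _ _
    · exact continuous_const.intervalIntegrable _ _
  rw [e1] at key2
  nlinarith [sq_nonneg (m - ∫ x in p..p + 1, f x), sq_nonneg π,
    mul_nonneg (sq_nonneg π) (sq_nonneg (m - ∫ x in p..p + 1, f x))]

end Pool.Agent.P.MP_5c8462_an
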